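import Pool.Agent.Helper69K9.SN.Stm

set_option autoImplicit false

namespace Pool.Agent.Helper69K9.SN

namespace CntL

open Finset

/-- `∑_{|m| ≤ B} y ^ |m| ≤ (1 + y) / (1 - y)` -/
theorem sum_abs {y : ℝ} (h0 : 0 ≤ y) (h1 : y < 1) (B : ℕ) :
    ∑ m ∈ Finset.Icc (-(B : ℤ)) B, y ^ m.natAbs ≤ (1 + y) / (1 - y) - 2 * y ^ (B + 1) / (1 - y) := by
  have h2 : 0 < 1 - y := by linarith
  induction B with
  | zero =>
    simp only [CharP.cast_eq_zero, neg_zero, Finset.Icc_self, Finset.sum_singleton,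
      Int.natAbs_zero, pow_zero, zero_add, pow_one]
    rw [← sub_div, le_div_iff₀ h2]
    linarith
  | succ B ih =>
    have hs : Finset.Icc (-((B + 1 : ℕ) : ℤ)) ((B + 1 : ℕ) : ℤ)
        = insert ((B + 1 : ℕ) : ℤ) (insert (-((B + 1 : ℕ) : ℤ)) (Finset.Icc (-(B : ℤ)) B)) := by
      ext x
      simp only [Finset.mem_Icc, Finset.mem_insert]
      push_cast
      omega
    rw [hs, Finset.sum_insert, Finset.sum_insert]
    · have e1 : (((B + 1 : ℕ) : ℤ)).natAbs = B + 1 := by omega
      have e2 : (-((B + 1 : ℕ) : ℤ)).natAbs = B + 1 := by omega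
      rw [e1, e2]
      have e3 : (1 + y) / (1 - y) - 2 * y ^ (B + 1 + 1) / (1 - y)
          = y ^ (B + 1) + (y ^ (B + 1) + ((1 + y) / (1 - y) - 2 * y ^ (B + 1) / (1 - y))) := by
        field_simp
        ring
      rw [e3]
      linarith
    · simp only [Finset.mem_Icc]
      push_cast
      omega
    · simp only [Finset.mem_insert, Finset.mem_Icc]
      push_cast
      omega

theorem sum_sq {y : ℝ} (h0 : 0 ≤ y) (h1 : y < 1) (B : ℕ) :
    ∑ m ∈ Finset.Icc (-(B : ℤ)) B, y ^ (m.natAbs ^ 2) ≤ (1 + y) / (1 - y) := by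
  have h2 : 0 < 1 - y := by linarith
  calc ∑ m ∈ Finset.Icc (-(B : ℤ)) B, y ^ (m.natAbs ^ 2)
      ≤ ∑ m ∈ Finset.Icc (-(B : ℤ)) B, y ^ m.natAbs := by
        refine Finset.sum_le_sum fun m _ => pow_le_pow_of_le_one h0 h1.le ?_
        nlinarith [Nat.zero_le m.natAbs, sq_nonneg (m.natAbs : ℤ),
          Nat.le_self_pow (n := 2) (by norm_num) m.natAbs]
    _ ≤ (1 + y) / (1 - y) - 2 * y ^ (B + 1) / (1 - y) := sum_abs h0 h1 B
    _ ≤ (1 + y) / (1 - y) := by
        have : 0 ≤ 2 * y ^ (B + 1) / (1 - y) := by positivity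
        linarith

/-- `∑_{k = 1}^n e^(- s k j) ≤ 1 / (s j)` -/
theorem geom {t : ℝ} (ht : 0 < t) (n : ℕ) :
    ∑ k ∈ Finset.range n, Real.exp (-(t * (k + 1))) ≤ 1 / t := by
  have h1 : t + 1 ≤ Real.exp t := Real.add_one_le_exp t
  have h2 : 0 < Real.exp t - 1 := by linarith
  have key : ∑ k ∈ Finset.range n, Real.exp (-(t * (k + 1)))
      = (1 - Real.exp (-(t * n))) / (Real.exp t - 1) := by
    induction n with
    | zero => simp
    | succ n ih =>
      rw [Finset.sum_range_succ, ih, div_add' _ _ _ h2.ne']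
      congr 1
      have e1 : Real.exp (-(t * (n + 1))) * (Real.exp t - 1)
          = Real.exp (-(t * n)) - Real.exp (-(t * (n + 1))) := by
        rw [mul_sub, mul_one, ← Real.exp_add]
        congr 2
        ring
      push_cast
      rw [e1]
      ring
  rw [key, div_le_div_iff₀ h2 ht]
  have h3 : 0 < Real.exp (-(t * n)) := Real.exp_pos _
  nlinarith

theorem odd_sum (N : ℕ) : ∑ j ∈ Finset.range (N + 1), 1 / (2 * (j : ℝ) + 1) ^ 2
    ≤ 5 / 4 - 1 / (4 * ((N : ℝ) + 1)) := by
  induction N with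
  | zero => norm_num
  | succ N ih =>
    rw [Finset.sum_range_succ]
    have h1 : 1 / (2 * ((N + 1 : ℕ) : ℝ) + 1) ^ 2
        ≤ 1 / (4 * ((N : ℝ) + 1)) - 1 / (4 * (((N + 1 : ℕ) : ℝ) + 1)) := by
      push_cast
      have hN : (0 : ℝ) ≤ N := Nat.cast_nonneg N
      rw [div_sub_div _ _ (by positivity) (by positivity), div_le_div_iff₀ (by positivity)
        (by positivity)]
      nlinarith
    linarith

/-- the logarithm of the product -/
theorem log_prod {s : ℝ} (hs : 0 < s) (n : ℕ) :
    ∑ k ∈ Finset.range n, (Real.log (1 + Real.exp (-(s * (k + 1))))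
      - Real.log (1 - Real.exp (-(s * (k + 1))))) ≤ 5 / (2 * s) := by
  have h1 : ∀ k ∈ Finset.range n, HasSum (fun j : ℕ => (2 : ℝ) * (1 / (2 * j + 1))
      * Real.exp (-(s * (k + 1))) ^ (2 * j + 1)) (Real.log (1 + Real.exp (-(s * (k + 1))))
      - Real.log (1 - Real.exp (-(s * (k + 1))))) := by
    intro k _
    apply Real.hasSum_log_sub_log_of_abs_lt_one
    rw [abs_of_pos (Real.exp_pos _), Real.exp_lt_one_iff]
    have : (0 : ℝ) ≤ k := Nat.cast_nonneg k
    nlinarith
  have h2 := hasSum_sum h1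
  refine le_of_tendsto' h2.tendsto_sum_nat fun N => ?_
  have h3 : ∀ j : ℕ, ∑ k ∈ Finset.range n, (2 : ℝ) * (1 / (2 * j + 1))
      * Real.exp (-(s * (k + 1))) ^ (2 * j + 1) ≤ 2 / s * (1 / (2 * (j : ℝ) + 1) ^ 2) := by
    intro j
    have hj : (0 : ℝ) < 2 * (j : ℝ) + 1 := by positivity
    have h4 := geom (t := s * (2 * j + 1)) (by positivity) n
    have h5 : ∀ k : ℕ, Real.exp (-(s * ((k : ℝ) + 1))) ^ (2 * j + 1)
        = Real.exp (-(s * (2 * j + 1) * (k + 1))) := by
      intro k
      rw [← Real.exp_nat_mul]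
      congr 1
      push_cast
      ring
    rw [← Finset.mul_sum, Finset.sum_congr rfl fun k _ => h5 k]
    calc 2 * (1 / (2 * (j : ℝ) + 1)) * ∑ k ∈ Finset.range n, Real.exp (-(s * (2 * j + 1) * (k + 1)))
        ≤ 2 * (1 / (2 * (j : ℝ) + 1)) * (1 / (s * (2 * j + 1))) :=
          mul_le_mul_of_nonneg_left h4 (by positivity)
      _ = 2 / s * (1 / (2 * (j : ℝ) + 1) ^ 2) := by
          field_simp
  calc ∑ j ∈ Finset.range N, ∑ k ∈ Finset.range n, (2 : ℝ) * (1 / (2 * j + 1))
      * Real.exp (-(s * (k + 1))) ^ (2 * j + 1)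
      ≤ ∑ j ∈ Finset.range N, 2 / s * (1 / (2 * (j : ℝ) + 1) ^ 2) :=
        Finset.sum_le_sum fun j _ => h3 j
    _ ≤ ∑ j ∈ Finset.range (N + 1), 2 / s * (1 / (2 * (j : ℝ) + 1) ^ 2) := by
        rw [Finset.sum_range_succ]
        have : 0 ≤ 2 / s * (1 / (2 * (N : ℝ) + 1) ^ 2) := by positivity
        linarith
    _ = 2 / s * ∑ j ∈ Finset.range (N + 1), (1 / (2 * (j : ℝ) + 1) ^ 2) := by
        rw [Finset.mul_sum]
    _ ≤ 2 / s * (5 / 4) := by
        refine mul_le_mul_of_nonneg_left ?_ (by positivity)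
        have h6 := odd_sum N
        have : 0 ≤ 1 / (4 * ((N : ℝ) + 1)) := by positivity
        linarith
    _ = 5 / (2 * s) := by
        field_simp
        norm_num

end CntL

/-- [CNT] -/
theorem cnt : S_CNT := by
  intro n R F hF
  rcases le_or_gt R 0 with hR | hR
  · have h1 : F ⊆ {0} := by
      intro m hm
      rw [Finset.mem_singleton]
      have h2 : ∑ i : Fin n, ((i : ℕ) + 1 : ℝ) * (m i : ℝ) ^ 2 ≤ 0 := (hF m hm).trans hR
      have h3 : ∀ i ∈ Finset.univ, 0 ≤ ((i : Fin n) + 1 : ℝ) * (m i : ℝ) ^ 2 :=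
        fun i _ => by positivity
      have h4 := (Finset.sum_eq_zero_iff_of_nonneg h3).1
        (le_antisymm h2 (Finset.sum_nonneg h3))
      funext i
      have h5 := h4 i (Finset.mem_univ i)
      have h6 : ((i : ℕ) + 1 : ℝ) ≠ 0 := by positivity
      have h7 : (m i : ℝ) = 0 := by
        rcases mul_eq_zero.1 h5 with h | h
        · exact absurd h h6
        · exact pow_eq_zero_iff (two_ne_zero) |>.1 h
      exact_mod_cast h7
    have h2 := Finset.card_le_card h1
    rw [Finset.card_singleton] at h2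
    have h3 : (F.card : ℝ) ≤ 1 := by exact_mod_cast h2
    exact h3.trans (Real.one_le_exp (by positivity))
  · -- a bound of the entries
    obtain ⟨B, hB⟩ : ∃ B : ℕ, ∀ m ∈ F, ∀ i, (m i).natAbs ≤ B := by
      refine ⟨∑ m ∈ F, ∑ i, (m i).natAbs, fun m hm i => ?_⟩
      calc (m i).natAbs ≤ ∑ i, (m i).natAbs :=
            Finset.single_le_sum (f := fun i => (m i).natAbs) (fun _ _ => Nat.zero_le _)
              (Finset.mem_univ i)
        _ ≤ ∑ m ∈ F, ∑ i, (m i).natAbs :=
            Finset.single_le_sum (f := fun m : Fin n → ℤ => ∑ i, (m i).natAbs)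
              (fun _ _ => Nat.zero_le _) hm
    have hr : 0 < Real.sqrt R := Real.sqrt_pos.2 hR
    have hrr : Real.sqrt R * Real.sqrt R = R := Real.mul_self_sqrt hR.le
    set s : ℝ := 3 / (2 * Real.sqrt R) with hs
    have hs0 : 0 < s := by positivity
    have h1 : ∀ m ∈ F, (1 : ℝ) ≤ Real.exp (s * R)
        * ∏ i : Fin n, Real.exp (-(s * ((i : ℕ) + 1))) ^ ((m i).natAbs ^ 2) := by
      intro m hm
      have e1 : ∀ i : Fin n, Real.exp (-(s * ((i : ℕ) + 1))) ^ ((m i).natAbs ^ 2)
          = Real.exp (-(s * (((i : ℕ) + 1 : ℝ) * (m i : ℝ) ^ 2))) := by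
        intro i
        rw [← Real.exp_nat_mul]
        congr 1
        push_cast
        have : ((m i).natAbs : ℝ) ^ 2 = (m i : ℝ) ^ 2 := by
          rw [Nat.cast_natAbs, Int.cast_abs, sq_abs]
        rw [this]
        ring
      rw [Finset.prod_congr rfl fun i _ => e1 i, ← Real.exp_sum, ← Real.exp_add]
      apply Real.one_le_exp
      rw [Finset.sum_neg_distrib, ← Finset.mul_sum]
      have := hF m hm
      nlinarith
    have h2 : F ⊆ Fintype.piFinset fun _ : Fin n => Finset.Icc (-(B : ℤ)) B := by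
      intro m hm
      rw [Fintype.mem_piFinset]
      intro i
      rw [Finset.mem_Icc]
      have := hB m hm i
      omega
    have h3 : (F.card : ℝ) ≤ Real.exp (s * R) * ∏ i : Fin n, ∑ m ∈ Finset.Icc (-(B : ℤ)) B,
        Real.exp (-(s * ((i : ℕ) + 1))) ^ (m.natAbs ^ 2) := by
      rw [Finset.prod_univ_sum]
      calc (F.card : ℝ) = ∑ m ∈ F, (1 : ℝ) := by simp
        _ ≤ ∑ m ∈ F, Real.exp (s * R)
            * ∏ i : Fin n, Real.exp (-(s * ((i : ℕ) + 1))) ^ ((m i).natAbs ^ 2) :=
            Finset.sum_le_sum h1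
        _ = Real.exp (s * R) * ∑ m ∈ F,
            ∏ i : Fin n, Real.exp (-(s * ((i : ℕ) + 1))) ^ ((m i).natAbs ^ 2) := by
            rw [Finset.mul_sum]
        _ ≤ _ := by
            refine mul_le_mul_of_nonneg_left ?_ (Real.exp_pos _).le
            refine Finset.sum_le_sum_of_subset_of_nonneg h2 fun m _ _ => ?_
            exact Finset.prod_nonneg fun i _ => by positivity
    have hlt : ∀ i : Fin n, Real.exp (-(s * ((i : ℕ) + 1))) < 1 := by
      intro i
      rw [Real.exp_lt_one_iff]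
      have : (0 : ℝ) ≤ (i : ℕ) := Nat.cast_nonneg _
      nlinarith
    have h4 : ∏ i : Fin n, ∑ m ∈ Finset.Icc (-(B : ℤ)) B,
        Real.exp (-(s * ((i : ℕ) + 1))) ^ (m.natAbs ^ 2)
        ≤ ∏ i : Fin n, (1 + Real.exp (-(s * ((i : ℕ) + 1)))) / (1 - Real.exp (-(s * ((i : ℕ) + 1)))) := by
      refine Finset.prod_le_prod (fun i _ => Finset.sum_nonneg fun m _ => by positivity)
        fun i _ => CntL.sum_sq (Real.exp_pos _).le (hlt i) B
    have h5 : ∏ i : Fin n, (1 + Real.exp (-(s * ((i : ℕ) + 1)))) / (1 - Real.exp (-(s * ((i : ℕ) + 1))))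
        = Real.exp (∑ k ∈ Finset.range n, (Real.log (1 + Real.exp (-(s * (k + 1))))
      - Real.log (1 - Real.exp (-(s * (k + 1)))))) := by
      rw [← Fin.sum_univ_eq_sum_range (fun k : ℕ => (Real.log (1 + Real.exp (-(s * (k + 1))))
      - Real.log (1 - Real.exp (-(s * (k + 1)))))) n, Real.exp_sum]
      refine Finset.prod_congr rfl fun i _ => ?_
      have h6 : 0 < 1 - Real.exp (-(s * ((i : ℕ) + 1))) := by linarith [hlt i]
      rw [Real.exp_sub, Real.exp_log (by positivity), Real.exp_log h6]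
    have h6 := CntL.log_prod hs0 n
    calc (F.card : ℝ) ≤ _ := h3
      _ ≤ Real.exp (s * R) * Real.exp (5 / (2 * s)) := by
          refine mul_le_mul_of_nonneg_left (h4.trans ?_) (Real.exp_pos _).le
          rw [h5]
          exact Real.exp_le_exp.2 h6
      _ = Real.exp (s * R + 5 / (2 * s)) := by rw [Real.exp_add]
      _ ≤ Real.exp (4 * Real.sqrt R) := by
          apply Real.exp_le_exp.2
          have e1 : s * R = 3 / 2 * Real.sqrt R := by
            rw [hs]
            field_simp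
            nlinarith
          have e2 : 5 / (2 * s) = 5 / 3 * Real.sqrt R := by
            rw [hs]
            field_simp
          rw [e1, e2]
          linarith

/-- [PC] -/
theorem pc : S_PC := by
  classical
  intro n ι _ e A R he hA hcls hR
  let cls : ι → Fin n → Finset ι := fun y k => Finset.univ.filter fun y' => ∀ j, j < k → e y' j = e y j
  have hmem : ∀ y k, y ∈ cls y k := fun y k => by simp [cls]
  have hstar : ∀ (S : Finset ι) (k : Fin n), ∃ z : Option ι, S.Nonempty →
      ∃ z' ∈ S, z = some z' ∧ ∀ y ∈ S, A z' k ≤ A y k := by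
    intro S k
    by_cases hS : S.Nonempty
    · obtain ⟨z, hz, hz2⟩ := S.exists_min_image (fun y => A y k) hS
      exact ⟨some z, fun _ => ⟨z, hz, rfl, hz2⟩⟩
    · exact ⟨none, fun h => absurd h hS⟩
  choose st hst using hstar
  let v : ι → Fin n → ℤ := fun y k => (st (cls y k) k).elim 0 fun z => e z k
  let m : ι → Fin n → ℤ := fun y k => e y k - v y k
  have hm : ∀ y k, |(m y k : ℝ)| ≤ 2 * A y k := by
    intro y k
    obtain ⟨z, hz, hz1, hz2⟩ := hst (cls y k) k ⟨y, hmem y k⟩
    have e1 : m y k = e y k - e z k := by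
      simp only [m, v]
      rw [hz1]
      rfl
    have h1 : ∀ j, j < k → e z j = e y j := by
      simpa [cls] using hz
    have h2 := hcls y z k fun j hj => (h1 j hj).symm
    have h3 := hz2 y (hmem y k)
    rw [e1]
    push_cast
    linarith
  have hinj : Function.Injective m := by
    intro y y' h
    apply he
    have key : ∀ (N : ℕ) (k : Fin n), (k : ℕ) < N → e y k = e y' k := by
      intro N
      induction N with
      | zero => intro k hk; exact absurd hk (Nat.not_lt_zero _)
      | succ N ih =>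
        intro k hk
        have h1 : cls y k = cls y' k := by
          ext z
          simp only [cls, Finset.mem_filter, Finset.mem_univ, true_and]
          have h2 : ∀ j, j < k → e y j = e y' j := fun j hj => ih j (by
            have : (j : ℕ) < (k : ℕ) := hj
            omega)
          constructor
          · intro h3 j hj; rw [h3 j hj, h2 j hj]
          · intro h3 j hj; rw [h3 j hj, h2 j hj]
        have h4 : m y k = m y' k := congrFun h k
        simp only [m, v] at h4
        rw [h1] at h4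
        linarith
    funext k
    exact key n k k.2
  have h1 := cnt n (4 * R) (Finset.univ.image m) (by
    intro m' hm'
    obtain ⟨y, _, rfl⟩ := Finset.mem_image.1 hm'
    calc ∑ i : Fin n, ((i : ℕ) + 1 : ℝ) * (m y i : ℝ) ^ 2
        ≤ ∑ i : Fin n, 4 * (((i : ℕ) + 1 : ℝ) * A y i ^ 2) := by
          refine Finset.sum_le_sum fun i _ => ?_
          have h2 := hm y i
          have h3 : (m y i : ℝ) ^ 2 ≤ (2 * A y i) ^ 2 := by
            rw [← sq_abs]
            exact pow_le_pow_left₀ (abs_nonneg _) h2 2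
          have h4 : (0 : ℝ) ≤ (i : ℕ) + 1 := by positivity
          nlinarith
      _ = 4 * ∑ i : Fin n, ((i : ℕ) + 1 : ℝ) * A y i ^ 2 := by rw [Finset.mul_sum]
      _ ≤ 4 * R := by linarith [hR y])
  rw [Finset.card_image_of_injective _ hinj, Finset.card_univ] at h1
  refine h1.trans (le_of_eq ?_)
  congr 1
  rw [Real.sqrt_mul (by norm_num), show (4 : ℝ) = 2 ^ 2 by norm_num, Real.sqrt_sq (by norm_num)]
  ring

end Pool.Agent.Helper69K9.SN
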