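import Pool.Agent.Helper69K9.SN.Stm

set_option autoImplicit false

open Polynomial

namespace Pool.Agent.Helper69K9.SN

namespace NewtL

theorem coeff_eq {d : ℕ} (x : Fin d → ℂ) {j : ℕ} (hj : j ≤ d) :
    (∏ i, (X - C (x i))).coeff (d - j)
      = (-1) ^ j * MvPolynomial.aeval x (MvPolynomial.esymm (Fin d) ℂ j) := by
  have h1 : (∏ i, (X - C (x i)))
      = ((Finset.univ.val.map x).map fun t => X - C t).prod := by
    rw [Multiset.map_map]
    rfl
  have hc : Multiset.card (Finset.univ.val.map x) = d := by simp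
  rw [h1, Multiset.prod_X_sub_C_coeff _ (by rw [hc]; omega), hc,
    MvPolynomial.aeval_esymm_eq_multiset_esymm, Nat.sub_sub_self hj]

theorem psum_eq {d : ℕ} (x : Fin d → ℂ) (j : ℕ) :
    MvPolynomial.aeval x (MvPolynomial.psum (Fin d) ℂ j) = ∑ i, x i ^ j := by
  simp [MvPolynomial.psum]

end NewtL

/-- [NEWT] -/
theorem newt : S_NEWT := by
  intro d x y k hk hkd hc
  have hE : ∀ j, 1 ≤ j → j < k → MvPolynomial.aeval x (MvPolynomial.esymm (Fin d) ℂ j)
      = MvPolynomial.aeval y (MvPolynomial.esymm (Fin d) ℂ j) := by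
    intro j h1 h2
    have h3 := hc j h1 h2
    rw [NewtL.coeff_eq x (by omega), NewtL.coeff_eq y (by omega)] at h3
    exact mul_left_cancel₀ (pow_ne_zero _ (by norm_num)) h3
  have key : ∀ j, 1 ≤ j → j ≤ k → ∑ i, x i ^ j - ∑ i, y i ^ j
      = (-1) ^ (j + 1) * j * (MvPolynomial.aeval x (MvPolynomial.esymm (Fin d) ℂ j)
        - MvPolynomial.aeval y (MvPolynomial.esymm (Fin d) ℂ j)) := by
    intro j
    induction j using Nat.strong_induction_on with
    | _ j ih =>
      intro h1 h2
      have e1 := congrArg (MvPolynomial.aeval x)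
        (MvPolynomial.psum_eq_mul_esymm_sub_sum (Fin d) ℂ j h1)
      have e2 := congrArg (MvPolynomial.aeval y)
        (MvPolynomial.psum_eq_mul_esymm_sub_sum (Fin d) ℂ j h1)
      rw [NewtL.psum_eq] at e1 e2
      rw [e1, e2]
      simp only [map_sub, map_mul, map_pow, map_neg, map_one, map_natCast, map_sum]
      have h3 : ∀ a ∈ (Finset.HasAntidiagonal.antidiagonal j).filter (fun a : ℕ × ℕ => a.1 ∈ Set.Ioo 0 j),
          (-1 : ℂ) ^ a.1 * MvPolynomial.aeval x (MvPolynomial.esymm (Fin d) ℂ a.1)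
            * MvPolynomial.aeval x (MvPolynomial.psum (Fin d) ℂ a.2)
          = (-1 : ℂ) ^ a.1 * MvPolynomial.aeval y (MvPolynomial.esymm (Fin d) ℂ a.1)
            * MvPolynomial.aeval y (MvPolynomial.psum (Fin d) ℂ a.2) := by
        intro a ha
        rw [Finset.mem_filter, Finset.HasAntidiagonal.mem_antidiagonal] at ha
        obtain ⟨ha1, ha2⟩ := ha
        have ha3 : 0 < a.1 ∧ a.1 < j := ha2
        rw [hE a.1 (by omega) (by omega), NewtL.psum_eq, NewtL.psum_eq]
        have h4 := ih a.2 (by omega) (by omega) (by omega)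
        rw [hE a.2 (by omega) (by omega), sub_self, mul_zero] at h4
        rw [sub_eq_zero.1 h4]
      rw [Finset.sum_congr rfl h3]
      ring
  constructor
  · intro j h1 h2
    have h3 := key j h1 h2.le
    rw [hE j h1 h2, sub_self, mul_zero] at h3
    exact sub_eq_zero.1 h3
  · rw [key k hk le_rfl, NewtL.coeff_eq x hkd, NewtL.coeff_eq y hkd, ← mul_sub]
    simp only [norm_mul, norm_pow, norm_neg, norm_one, one_pow, one_mul]
    congr 1
    simp

end Pool.Agent.Helper69K9.SN
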